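import Pool.Agent.Helper42.RZ.Basic
import Pool.Agent.Helper42.RZ.St.S1

/-! # RZ-S2: a random rotation -/

set_option autoImplicit false

open MeasureTheory Set Metric Filter Topology
open scoped ENNReal

namespace Pool.Agent.Helper41.RZ

open Pool.Agent.Helper42.RZ

/-- the orthogonal group -/
abbrev Gr : Type := unitary (E3 →L[ℝ] E3)

local instance : ContinuousStar (E3 →L[ℝ] E3) :=
  ⟨(ContinuousLinearMap.adjoint (𝕜 := ℝ) (E := E3) (F := E3)).continuous⟩

local instance : CompactSpace Gr := by
  have : ProperSpace (E3 →L[ℝ] E3) := FiniteDimensional.proper ℝ _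
  apply isCompact_iff_compactSpace.mp
  apply (isCompact_closedBall (0 : E3 →L[ℝ] E3) 1).of_isClosed_subset isClosed_unitary
  intro U hU
  rw [mem_closedBall_zero_iff]
  apply ContinuousLinearMap.opNorm_le_bound _ zero_le_one
  intro x
  have h := (Unitary.linearIsometryEquiv ⟨U, hU⟩).norm_map x
  rw [one_mul]
  exact h.le

noncomputable local instance : MeasurableSpace Gr := borel Gr

local instance : BorelSpace Gr := ⟨rfl⟩

/-- Haar measure -/
noncomputable def haarG : Measure Gr := Measure.haarMeasure ⊤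

local instance : IsProbabilityMeasure haarG := by
  refine ⟨?_⟩
  have := Measure.haarMeasure_self (K₀ := (⊤ : TopologicalSpace.PositiveCompacts Gr))
  simpa [haarG] using this

local instance : haarG.IsMulLeftInvariant := by
  unfold haarG; infer_instance

/-- the action by the inverse -/
noncomputable def act (ω : Gr) : E3 ≃ₗᵢ[ℝ] E3 := Unitary.linearIsometryEquiv ω⁻¹

theorem continuous_act (x : E3) : Continuous fun ω : Gr => act ω x := by
  have h1 : (fun ω : Gr => act ω x) = fun ω : Gr => ((ω⁻¹ : Gr) : E3 →L[ℝ] E3) x := rfl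
  rw [h1]
  have h2 : Continuous fun ω : Gr => ((ω⁻¹ : Gr) : E3 →L[ℝ] E3) :=
    continuous_subtype_val.comp continuous_inv
  exact h2.clm_apply continuous_const

theorem act_mul (k ω : Gr) (x : E3) : act (k * ω) x = act ω (act k x) := by
  unfold act
  rw [mul_inv_rev, map_mul]
  rfl

/-- the action is transitive on spheres -/
theorem exists_act {x y : E3} (h : ‖x‖ = ‖y‖) : ∃ k : Gr, act k x = y := by
  by_cases hxy : x = y
  · refine ⟨1, ?_⟩
    unfold act
    rw [inv_one, map_one]
    exact hxy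
  · set T : E3 ≃ₗᵢ[ℝ] E3 := (ℝ ∙ (x - y))ᗮ.reflection with hT
    refine ⟨(Unitary.linearIsometryEquiv.symm T)⁻¹, ?_⟩
    unfold act
    rw [inv_inv, MulEquiv.apply_symm_apply]
    exact Submodule.reflection_sub h

theorem measurable_act_prod : Measurable fun p : Gr × E3 => act p.1 p.2 := by
  have h1 : (fun p : Gr × E3 => act p.1 p.2) = fun p : Gr × E3 =>
      ∑ i : Fin 3, p.2 i • act p.1 (EuclideanSpace.single i 1) := by
    funext p
    have h2 : p.2 = ∑ i : Fin 3, p.2 i • (EuclideanSpace.single i (1 : ℝ) : E3) := by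
      ext j
      simp [Finset.sum_apply, Pi.single_apply]
    conv_lhs => rw [h2]
    rw [map_sum]
    simp_rw [map_smul]
  rw [h1]
  apply Finset.measurable_sum
  intro i _
  have h3 : Measurable fun p : Gr × E3 => p.2 i := by fun_prop
  have h4 : Measurable fun p : Gr × E3 => act p.1 (EuclideanSpace.single i 1) :=
    (continuous_act _).measurable.comp measurable_fst
  exact h3.smul h4

theorem exists_rot : ∃ (Γ : Type) (_ : MeasurableSpace Γ) (γ : Measure Γ)
    (_ : IsProbabilityMeasure γ) (g : Γ → E3 ≃ₗᵢ[ℝ] E3),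
    (∀ x, Measurable fun ω => g ω x) ∧
    ∀ x, ‖x‖ = 1 → Measure.map (fun ω => g ω x) γ = sig := by
  refine ⟨Gr, inferInstance, haarG, inferInstance, act, fun x => (continuous_act x).measurable, ?_⟩
  intro x hx
  ext B hB
  rw [Measure.map_apply (continuous_act x).measurable hB]
  -- the law does not depend on the unit vector
  have hinv : ∀ y : E3, ‖y‖ = 1 → haarG ((fun ω => act ω y) ⁻¹' B) = haarG ((fun ω => act ω x) ⁻¹' B) := by
    intro y hy
    obtain ⟨k, hk⟩ := exists_act (x := x) (y := y) (by rw [hx, hy])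
    have h1 : (fun ω => act ω y) ⁻¹' B = (fun ω => k * ω) ⁻¹' ((fun ω => act ω x) ⁻¹' B) := by
      ext ω
      simp only [mem_preimage]
      rw [act_mul, hk]
    rw [h1, measure_preimage_mul]
  -- Fubini
  have hm : MeasurableSet {p : Gr × E3 | act p.1 p.2 ∈ B} := measurable_act_prod hB
  have e1 : (haarG.prod sig) {p : Gr × E3 | act p.1 p.2 ∈ B} = sig B := by
    rw [Measure.prod_apply hm]
    have h2 : ∀ ω : Gr, sig (Prod.mk ω ⁻¹' {p : Gr × E3 | act p.1 p.2 ∈ B}) = sig B := by
      intro ω
      have h3 : Prod.mk ω ⁻¹' {p : Gr × E3 | act p.1 p.2 ∈ B} = (act ω) ⁻¹' B := rfl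
      rw [h3, ← Measure.map_apply (act ω).continuous.measurable hB, map_sig]
    simp_rw [h2]
    simp
  have e2 : (haarG.prod sig) {p : Gr × E3 | act p.1 p.2 ∈ B} = haarG ((fun ω => act ω x) ⁻¹' B) := by
    rw [Measure.prod_apply_symm hm]
    have h4 : ∀ᵐ y ∂sig, haarG ((fun ω => (ω, y)) ⁻¹' {p : Gr × E3 | act p.1 p.2 ∈ B})
        = haarG ((fun ω => act ω x) ⁻¹' B) := by
      filter_upwards [ae_norm_sig] with y hy
      exact hinv y hy
    rw [lintegral_congr_ae h4]
    simp
  rw [← e2, e1]

end Pool.Agent.Helper41.RZ
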